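import Pool.Agent.E8helper86.EL.Upper

/-!
# Upper bounds for the number of primes `n ^ 2 + n + A` in almost all short intervals, for every odd `A`

For an individual interval `(N, N + X ^ h]` the sieve gives at most `(4 / h + δ)` times the conjectured
number of `n` with `n ^ 2 + n + A` prime. Here, for every odd `A`, the constant is `4 / t + δ` for all
but at most `X ^ (2 t - h + ε)` of the `N ≤ X`, for every `1 / 2 ≤ t < 1`: the constant is
`8 / (1 + h) + δ` for almost all `N`, and `8 + δ` for all but `X ^ (1 - h + ε)` of them, however small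
`h > 0` is.
-/

set_option autoImplicit false

namespace Pool.Agent.Results.MP_8be758_nt.AlmostAllShortUpperH86

open Finset Filter Topology

/-- The number of the integers `n` in `(N, N + H]` such that `n ^ 2 + n + A` is a prime, that is
`P_A(N + H) - P_A(N)`. -/
def primeCount (A N H : ℕ) : ℕ := ((Ioc N (N + H)).filter (fun n : ℕ => (n ^ 2 + n + A).Prime)).card

open Classical in
/-- **Primes `n ^ 2 + n + A` in almost all short intervals.** Let `A` be an odd positive integer and
`Δ = 1 - 4 A`. There is `C(Δ) > 0`, the product over the odd primes `p` of `1 - (Δ / p) / (p - 1)` in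
increasing order, the constant of the conjecture, such that for all `0 < h ≤ 1`, `1 / 2 ≤ t < 1` and
`δ, ε > 0` and all large `X` the inequality
`P_A(N + X ^ h) - P_A(N) ≤ (4 / t + δ) C(Δ) X ^ h / log X` holds for all but at most
`X ^ (2 t - h + ε)` of the integers `1 ≤ N ≤ X`. -/
theorem result (A : ℕ) (hA : Odd A) : ∃ C : ℝ, 0 < C ∧
    Tendsto (fun x : ℕ => ∏ p ∈ (Finset.range (x + 1)).filter (fun p => p.Prime ∧ p ≠ 2),
      (1 - (jacobiSym (1 - 4 * (A : ℤ)) p : ℝ) / ((p : ℝ) - 1))) atTop (𝓝 C) ∧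
    ∀ h t δ ε : ℝ, 0 < h → h ≤ 1 → 1 / 2 ≤ t → t < 1 → 0 < δ → 0 < ε →
      ∀ᶠ X : ℕ in atTop, (((Icc 1 X).filter (fun N : ℕ =>
        (4 / t + δ) * (C * ((X : ℝ) ^ h / Real.log X)) <
          (primeCount A N ⌊(X : ℝ) ^ h⌋₊ : ℝ))).card : ℝ) ≤ (X : ℝ) ^ (2 * t - h + ε) :=
  Pool.Agent.E8helper86.EL.main A hA

end Pool.Agent.Results.MP_8be758_nt.AlmostAllShortUpperH86
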