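import Pool.Agent.E8helper86.EL.Alm

/-!
# Almost primes `n ^ 2 + n + A` in arbitrarily short intervals, for all but few positions and every odd `A`
-/

set_option autoImplicit false

namespace Pool.Agent.Results.MP_8be758_nt.AlmostPrimesShortH86

open Finset Filter

open Classical in
/-- The number of the integers `n` in `(N, N + H]` such that `n ^ 2 + n + A` has at most `r` prime factors
(counted with multiplicity), all of them at least `w`. -/
noncomputable def almostPrimes (A : ℤ) (r : ℕ) (w : ℝ) (N H : ℕ) : ℕ :=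
  ((Finset.Ioc N (N + H)).filter (fun n : ℕ =>
    ((n : ℤ) ^ 2 + n + A).natAbs.primeFactorsList.length ≤ r ∧
      ∀ p : ℕ, p.Prime → (p : ℤ) ∣ (n : ℤ) ^ 2 + n + A → w ≤ p)).card

open Classical in
/-- **Almost prime values of `n ^ 2 + n + A` in very short intervals.**  Let `A` be an odd integer such that
`1 - 4 A` is no perfect square, for instance any odd `A ≥ 1`, and let `r = 5`, `1 / 2 ≤ t < 1`,
`z = 2 t / 5`, or `r = 4`, `269 / 500 ≤ t < 1`, `z = t / 4`, or `r = 3`, `29 / 40 ≤ t < 1`, `z = t / 4`.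
For `0 < h ≤ 1` all `N ≤ X` with at most `X ^ (2 t - h + ε)` exceptions have at least `δ X ^ h / log X`
integers `n` in `(N, N + X ^ h]` such that `n ^ 2 + n + A` has at most `r` prime factors, all of them at
least `X ^ z`. -/
theorem result (A : ℤ) (hA : Odd A) (hns : ¬ IsSquare (1 - 4 * A)) (r : ℕ) (t z : ℝ)
    (hpar : (r = 5 ∧ 1 / 2 ≤ t ∧ z = 2 / 5 * t) ∨ (r = 4 ∧ 269 / 500 ≤ t ∧ z = t / 4) ∨
      (r = 3 ∧ 29 / 40 ≤ t ∧ z = t / 4)) (ht : t < 1) (h ε : ℝ) (hh : 0 < h) (h1 : h ≤ 1)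
    (hε : 0 < ε) :
    ∃ δ : ℝ, 0 < δ ∧ ∀ᶠ X : ℕ in atTop,
      (((Finset.Icc 1 X).filter (fun N : ℕ =>
        (almostPrimes A r ((X : ℝ) ^ z) N ⌊(X : ℝ) ^ h⌋₊ : ℝ) < δ * (X : ℝ) ^ h / Real.log X)).card : ℝ) ≤
      (X : ℝ) ^ (2 * t - h + ε) := by
  rcases hpar with ⟨rfl, ht0, rfl⟩ | ⟨rfl, ht0, rfl⟩ | ⟨rfl, ht0, rfl⟩
  · have hc := Pool.Agent.Y882.KW.cond_B t (20 / 31) (by linarith) (by norm_num) (by norm_num)
    obtain ⟨δ, hδ, X0, H⟩ := Pool.Agent.E8helper86.EL.finAllE A hns hA 5 t (2 / 5 * t) (9 / 10 * t) (20 / 31)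
      (1001 / 500) (by linarith) (by linarith) (by linarith) ht (by linarith) (by linarith)
      (by linarith) (by norm_num) hc (by norm_num) (by
        have h3 : (1001 / 500 : ℝ) / (9 / 10 * t) ≤ 4449 / 1000 := by
          rw [div_le_iff₀ (by linarith)]
          linarith
        push_cast
        norm_num at h3 ⊢
        linarith) h ε hh h1 hε
    exact ⟨δ, hδ, eventually_atTop.2 ⟨X0, fun X hX => H X hX⟩⟩
  · have hc := Pool.Agent.Y882.KW.cond_A t (8 / 9) (by linarith) (by norm_num) (by norm_num)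
    obtain ⟨δ, hδ, X0, H⟩ := Pool.Agent.E8helper86.EL.finAllE A hns hA 4 t (t / 4) (24 / 25 * t) (8 / 9)
      (2001 / 1000) (by linarith) (by linarith) (by linarith) ht (by linarith) (by linarith)
      (by linarith) (by norm_num) hc (by norm_num) (by
        have h3 : (2001 / 1000 : ℝ) / (24 / 25 * t) ≤ 3875 / 1000 := by
          rw [div_le_iff₀ (by linarith)]
          linarith
        push_cast
        norm_num at h3 ⊢
        linarith) h ε hh h1 hε
    exact ⟨δ, hδ, eventually_atTop.2 ⟨X0, fun X hX => H X hX⟩⟩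
  · have hc := Pool.Agent.Y882.KW.cond_A t (8 / 9) (by linarith) (by norm_num) (by norm_num)
    obtain ⟨δ, hδ, X0, H⟩ := Pool.Agent.E8helper86.EL.finAllE A hns hA 3 t (t / 4) (24 / 25 * t) (8 / 9)
      (2001 / 1000) (by linarith) (by linarith) (by linarith) ht (by linarith) (by linarith)
      (by linarith) (by norm_num) hc (by norm_num) (by
        have h3 : (2001 / 1000 : ℝ) / (24 / 25 * t) ≤ 2875 / 1000 := by
          rw [div_le_iff₀ (by linarith)]
          linarith
        push_cast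
        norm_num at h3 ⊢
        linarith) h ε hh h1 hε
    exact ⟨δ, hδ, eventually_atTop.2 ⟨X0, fun X hX => H X hX⟩⟩

end Pool.Agent.Results.MP_8be758_nt.AlmostPrimesShortH86
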