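import Pool.Agent.E8helper28.QD.Qd4

/-!
# Prime values of `x ^ 2 + x + A` at the elements of arbitrary sets, for almost all `A` and almost all
vectors of `k` values of `A` (helper28)
-/

set_option autoImplicit false

namespace Pool.Agent.Results.MP_8be758_nt.ArbitraryArgumentsH28

open Finset

open Classical in
/-- The number of `x ∈ M` with `y₁ < x ≤ y₂` such that `x ^ 2 + x + A i` is prime for every `i`. -/
noncomputable def primeCount {k : ℕ} (A : Fin k → ℕ) (M : Set ℕ) (y₁ y₂ : ℕ) : ℕ :=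
  ((Ioc y₁ y₂).filter (fun x : ℕ => x ∈ M ∧ ∀ i, (x ^ 2 + x + A i).Prime)).card

open Classical in
/-- The number of `x ∈ M` with `y₁ < x ≤ y₂` such that no `x ^ 2 + x + A i` is divisible by a prime `p ≤ z`. -/
noncomputable def roughCount {k : ℕ} (A : Fin k → ℕ) (z : ℕ) (M : Set ℕ) (y₁ y₂ : ℕ) : ℕ :=
  ((Ioc y₁ y₂).filter (fun x : ℕ => x ∈ M ∧ ∀ i, ∀ p : ℕ, p.Prime → p ≤ z → ¬ p ∣ x ^ 2 + x + A i)).card

/-- `∏_{p ≤ z} (1 - 1 / p)`, the density of the integers without prime factors `≤ z`. -/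
noncomputable def V (z : ℕ) : ℝ := ∏ p ∈ (Icc 1 z).filter Nat.Prime, (1 - 1 / (p : ℝ))

/-- For every one of the sets `𝒩 l` and every window `y₁ < x ≤ y₂` with `y₂ ≤ B N` which contains at least
`N / log ^ K N` elements `x` of `𝒩 l` such that the numbers `x ^ 2 + x + A i` have no prime factor `≤ z`, the
proportion of these elements for which all `x ^ 2 + x + A i` are prime is `1 / (V z log (N ^ 2)) ^ k`, up to a
relative error of at most `ε`. -/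
def Relative (ε : ℝ) (K B N z : ℕ) {k m : ℕ} (𝒩 : Fin m → Set ℕ) (A : Fin k → ℕ) : Prop :=
  ∀ l : Fin m, ∀ y₁ y₂ : ℕ, y₁ ≤ y₂ → y₂ ≤ B * N →
    (N : ℝ) / Real.log N ^ K ≤ roughCount A z (𝒩 l) y₁ y₂ →
    |(primeCount A (𝒩 l) y₁ y₂ : ℝ) - roughCount A z (𝒩 l) y₁ y₂ / (2 * V z * Real.log N) ^ k| ≤
      ε * (roughCount A z (𝒩 l) y₁ y₂ / (2 * V z * Real.log N) ^ k)

open Pool.Agent.TH935.TG (win)
open Pool.Agent.H373R2.T7 (pz mem_pz Vz)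
open Pool.Agent.E8helper28.QD

open Classical in
lemma prime_eq {k : ℕ} (A : Fin k → ℕ) (M : Set ℕ) (Y y₁ y₂ : ℕ) (hY : y₂ ≤ Y) :
    primeCount A M y₁ y₂ = cq A (win ((Ioc 0 Y).filter (· ∈ M)) y₁ y₂) := by
  unfold primeCount cq win qP
  congr 1
  ext n
  simp only [mem_filter, mem_Ioc]
  constructor
  · rintro ⟨⟨h1, h2⟩, h3, h4⟩
    exact ⟨⟨⟨⟨by omega, by omega⟩, h3⟩, ⟨h1, h2⟩⟩, h4⟩
  · rintro ⟨⟨⟨_, h3⟩, ⟨h1, h2⟩⟩, h4⟩
    exact ⟨⟨h1, h2⟩, h3, h4⟩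

open Classical in
lemma rough_eq {k : ℕ} (A : Fin k → ℕ) (z : ℕ) (M : Set ℕ) (Y y₁ y₂ : ℕ) (hY : y₂ ≤ Y) :
    roughCount A z M y₁ y₂ = rq z A (win ((Ioc 0 Y).filter (· ∈ M)) y₁ y₂) := by
  unfold roughCount rq win qR
  congr 1
  ext n
  simp only [mem_filter, mem_Ioc]
  constructor
  · rintro ⟨⟨h1, h2⟩, h3, h4⟩
    exact ⟨⟨⟨⟨by omega, by omega⟩, h3⟩, ⟨h1, h2⟩⟩, fun i p hp => h4 i p (mem_pz.1 hp).2 (mem_pz.1 hp).1⟩
  · rintro ⟨⟨⟨_, h3⟩, ⟨h1, h2⟩⟩, h4⟩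
    exact ⟨⟨h1, h2⟩, h3, fun i p hp1 hp2 => h4 i p (mem_pz.2 ⟨hp2, hp1⟩)⟩

lemma V_eq (z : ℕ) : V z = Vz z := rfl

open Classical in
lemma rel_of (ε : ℝ) (K B N z : ℕ) {k m : ℕ} (𝒩 : Fin m → Set ℕ) (A : Fin k → ℕ)
    (h : QB ε K B N z (fun l : Fin m => (Ioc 0 (B * N)).filter (· ∈ 𝒩 l)) A) :
    Relative ε K B N z 𝒩 A := by
  intro l y₁ y₂ h12 hy2 hR
  have h1 := h l y₁ y₂ h12 hy2
  rw [rough_eq A z (𝒩 l) (B * N) y₁ y₂ hy2] at hR ⊢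
  rw [prime_eq A (𝒩 l) (B * N) y₁ y₂ hy2, V_eq]
  exact h1 hR

open Classical in
/-- **Prime values of `x ^ 2 + x + A` at the elements of arbitrary sets.** Let `E` be large in terms of
`k, B, T, U, K, ε` and `N` large in terms of all of them. Let `𝒩 1, ..., 𝒩 m`, `m ≤ log ^ T N`, be arbitrary
sets of positive integers. Then all but at most `N ^ (2 k) / log ^ U N` of the vectors `(A 1, ..., A k)` of
integers `1 ≤ A i ≤ B N ^ 2` satisfy the statement `Relative` for the sets `𝒩 l` with the sieving limit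
`z = ⌊log ^ E N⌋`. -/
theorem result (k B T U K : ℕ) (hB : 1 ≤ B) (ε : ℝ) (hε : 0 < ε) :
    ∃ E₀ : ℕ, ∀ E : ℕ, E₀ ≤ E → ∃ N₀ : ℕ, ∀ N : ℕ, N₀ ≤ N →
    ∀ m : ℕ, (m : ℝ) ≤ Real.log N ^ T → ∀ 𝒩 : Fin m → Set ℕ,
      (((Fintype.piFinset (fun _ : Fin k => Icc 1 (B * N ^ 2))).filter
        (fun A => ¬ Relative ε K B N ⌊Real.log N ^ E⌋₊ 𝒩 A)).card : ℝ) ≤
        (N : ℝ) ^ (2 * k) / Real.log N ^ U := by
  obtain ⟨E0, h0⟩ := winq k B T U K hB ε hε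
  refine ⟨E0, fun E hE => ?_⟩
  obtain ⟨n0, h1⟩ := h0 E hE
  refine ⟨n0, fun N hN m hm 𝒩 => ?_⟩
  obtain ⟨X, hX1, hX2⟩ := h1 N hN (Fin m) (by rw [Fintype.card_fin]; exact hm)
    (fun l : Fin m => (Ioc 0 (B * N)).filter (· ∈ 𝒩 l)) (fun l => filter_subset _ _)
  refine le_trans ?_ hX1
  rw [Nat.cast_le]
  apply card_le_card
  intro A hA
  rw [mem_filter] at hA
  by_contra hcon
  exact hA.2 (rel_of ε K B N _ 𝒩 A (hX2 A hA.1 hcon))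

end Pool.Agent.Results.MP_8be758_nt.ArbitraryArgumentsH28
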