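import Pool.Agent.E8helper86.CF.Dig

/-!
# Prime values of `x ^ 2 + x + A` at the elements of arbitrary subsets of sparse sets of integers with
restricted digits, for almost all `A`

Let `S` be the set of the integers below `b ^ k` whose digits in base `b` belong to given sets of at least
two digits; `S` may have only `b ^ (δ k)` elements. Let `M l`, at most `k ^ W` of them, be arbitrary sets of
natural numbers, chosen before the values of `A`. For all but `X ^ r / k ^ U` of the `r`-tuples of
integers `A j ≤ X` the formula of Hardy and Littlewood holds relative to all the sets `M l`: among the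
elements of `S` and `M l` in every window and in every residue class modulo `q ≤ k ^ K`, the number of
those for which all `x ^ 2 + x + A j` are prime is the number of those for which they have no prime factor
`≤ z`, multiplied by `1 / (V(z) log b ^ (2 k)) ^ r`.
-/

set_option autoImplicit false

namespace Pool.Agent.Results.MP_8be758_nt.DigitArgumentsH86

open Finset

open Classical in
/-- The number of the `x` in `S` and in `M` for which all the `x ^ 2 + x + A j` are prime. -/
noncomputable def primeArguments {r : ℕ} (S : Finset ℕ) (M : Set ℕ) (A : Fin r → ℕ) : ℕ :=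
  (S.filter (fun x => x ∈ M ∧ ∀ j, (x ^ 2 + x + A j).Prime)).card

open Classical in
/-- The number of the `x` in `S` and in `M` for which no prime `p ≤ z` divides one of the
`x ^ 2 + x + A j`. -/
noncomputable def roughArguments {r : ℕ} (z : ℕ) (S : Finset ℕ) (M : Set ℕ) (A : Fin r → ℕ) : ℕ :=
  (S.filter (fun x => x ∈ M ∧ ∀ j, ∀ p : ℕ, p.Prime → p ≤ z → ¬ p ∣ x ^ 2 + x + A j)).card

/-- The product of `1 - 1 / p` over the primes `p ≤ z`. -/
noncomputable def V (z : ℕ) : ℝ := ∏ p ∈ (Icc 1 z).filter Nat.Prime, (1 - 1 / (p : ℝ))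

/-- The prediction: the number of the arguments for which the values have no prime factor `p ≤ z`, times
the `r`-th power of the probability `1 / (V(z) L)` that an integer of logarithm `L` without such a prime
factor is prime. -/
noncomputable def predicted {r : ℕ} (z : ℕ) (L : ℝ) (S : Finset ℕ) (M : Set ℕ) (A : Fin r → ℕ) : ℝ :=
  roughArguments z S M A / (V z * L) ^ r

/-- The formula of Hardy and Littlewood relative to `M`, with the relative error `ε` and the absolute
error `δ`. -/
def Formula {r : ℕ} (ε δ : ℝ) (z : ℕ) (L : ℝ) (S : Finset ℕ) (M : Set ℕ) (A : Fin r → ℕ) : Prop :=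
  |(primeArguments S M A : ℝ) - predicted z L S M A| ≤ ε * predicted z L S M A + δ

/-- The `x` in `M` with `y₁ ≤ x < y₂` which leave the remainder `a` modulo `q`. -/
def part (M : Set ℕ) (y₁ y₂ q a : ℕ) : Set ℕ := {x | x ∈ M ∧ y₁ ≤ x ∧ x < y₂ ∧ x % q = a}

/-- The integers below `b ^ k` whose `i`-th digit in base `b` belongs to `D i` for all `i < k`. -/
def digitSet (b : ℕ) (D : ℕ → Finset ℕ) (k : ℕ) : Finset ℕ :=
  (range (b ^ k)).filter (fun n : ℕ => ∀ i < k, n / b ^ i % b ∈ D i)

/-- The `r`-tuples of integers between `1` and `X`. -/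
def tuples (r X : ℕ) : Finset (Fin r → ℕ) := Fintype.piFinset (fun _ => Icc 1 X)

open Classical in
/-- **The Hardy-Littlewood formula for `x ^ 2 + x + A` relative to arbitrary subsets of sparse sets.**
Let `b ≥ 2`, `F`, `r`, `U`, `K`, `W` and `ε > 0` be given. For `k` large and `z` between `k ^ B` (`B` large)
and any larger fixed power of `k`: let `S` be the set of the integers below `b ^ k` with digits in given sets
`D i` of at least two digits, `b ^ (2 k) ≤ X ≤ F b ^ (2 k)`, and let at most `k ^ W` ARBITRARY sets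
`M l` be given. For all but at most `X ^ r / k ^ U` of the `r`-tuples of integers `A j ≤ X` the formula
holds, with the errors `ε` and `|S| / k ^ K`, for the elements of `S` and `M l` in the window `y₁ ≤ x < y₂` and
in the residue class of `a` modulo `q`, simultaneously for all `l`, all windows, all `q ≤ k ^ K` and
all `a`. -/
theorem result (b : ℕ) (hb : 2 ≤ b) (r F U K W : ℕ) (ε : ℝ) (hε : 0 < ε) :
    ∃ B : ℕ, ∀ E : ℕ, ∃ K₀ : ℕ, ∀ k : ℕ, K₀ ≤ k → ∀ z : ℕ, (k : ℝ) ^ B ≤ z → (z : ℝ) ≤ (k : ℝ) ^ E →
      ∀ D : ℕ → Finset ℕ, (∀ i < k, D i ⊆ range b ∧ 2 ≤ (D i).card) →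
      ∀ X : ℕ, b ^ (2 * k) ≤ X → X ≤ F * b ^ (2 * k) →
      ∀ m : ℕ, (m : ℝ) ≤ (k : ℝ) ^ W → ∀ M : Fin m → Set ℕ,
      (((tuples r X).filter (fun A => ¬ ∀ l : Fin m, ∀ y₁ y₂ q a : ℕ, 1 ≤ q → (q : ℝ) ≤ (k : ℝ) ^ K →
        Formula ε ((digitSet b D k).card / (k : ℝ) ^ K) z (Real.log ((b : ℝ) ^ (2 * k)))
          (digitSet b D k) (part (M l) y₁ y₂ q a) A)).card : ℝ) ≤ (X : ℝ) ^ r / (k : ℝ) ^ U :=
  Pool.Agent.E8helper86.CF.dig b hb r F U K W ε hε

end Pool.Agent.Results.MP_8be758_nt.DigitArgumentsH86
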